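import Pool.Agent.W954.Sav.Ppoly
import Pool.Agent.W901.NU.DefsA

/-!
# Polynomial-size circuits and polynomial advice
-/

set_option autoImplicit false

namespace Pool.Agent.TH709

open Pool.Agent.NPC Pool.Agent.W954.Sav

/-- the decoder for circuits -/
def decV (z : List Bool) : List Bool :=
  [(unbits (List Gate × ℕ) (unpair z).2).elim false fun D => evalD D (unpair z).1]

theorem polyTime_decV : PolyTime decV := by
  unfold decV
  refine polyTime_of_poly (NPC.Poly.optElim (h := fun (z : List Bool)
    (D : List Gate × ℕ) => evalD D (unpair z).1)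
    (poly_unbits.comp (Poly.snd poly_unpair)) (NPC.Poly.const _) (poly_evalD (Poly.snd Poly.id)
      (Poly.fst (poly_unpair.comp (Poly.fst Poly.id)))))

/-- Circuits are advice. -/
theorem adv_of_circuits {L : Set (List Bool)} (h : Pool.Agent.W954.Sav.InPpoly L) :
    Pool.Agent.W901.NU.InPpoly L := by
  obtain ⟨r, hr⟩ := h.short
  choose C hC1 hC2 using hr
  refine ⟨decV, fun n => (C n).desc, r, polyTime_decV, hC1, fun x => ?_⟩
  have h3 : unbits (List Gate × ℕ) (C x.length).desc = some ((C x.length).gates, (C x.length).out) :=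
    unbits_bits _
  unfold decV
  simp only [unpair_pairBits, h3, Option.elim_some, List.cons.injEq, and_true]
  have e4 := hC2 x.length x.get
  rw [List.ofFn_get] at e4
  rw [← e4]
  unfold evalD Circuit.eval
  rw [List.ofFn_get]

/-- the raw algorithm -/
def rawA (V : List Bool → List Bool) (y : List Bool) : List Bool :=
  (unbits (List Unit × List Bool) (unpair y).1).elim [] fun A =>
    V (pairBits (cut A.1 (unpair y).2) A.2)

theorem polyTime_rawA {V : List Bool → List Bool} (hV : PolyTime V) : PolyTime (rawA V) := by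
  have hVp := H622R2.poly_of_polyTime hV
  refine H622R2.polyTime_of_poly_list ?_
  unfold rawA
  refine NPC.Poly.optElim (h := fun (y : List Bool) (A : List Unit × List Bool) =>
    V (pairBits (cut A.1 (unpair y).2) A.2))
    (poly_unbits.comp (Poly.fst poly_unpair)) (NPC.Poly.const _) ?_
  refine hVp.comp (H622R2.poly_pairBits ?_ (Poly.snd (Poly.snd Poly.id)))
  unfold cut
  have h1 : Poly (fun q : List Bool × (List Unit × List Bool) => (unpair q.1).2) :=
    Poly.snd (poly_unpair.comp (Poly.fst Poly.id))
  have h2 : Poly (fun q : List Bool × (List Unit × List Bool) => q.2.1) :=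
    Poly.fst (Poly.snd Poly.id)
  fun_prop

/-- Advice gives circuits. -/
theorem circuits_of_adv {L : Set (List Bool)} (h : Pool.Agent.W901.NU.InPpoly L) :
    Pool.Agent.W954.Sav.InPpoly L := by
  obtain ⟨V, α, p, hV, hα, hVL⟩ := h
  let xn : ℕ → List Bool := fun n => bits (List.replicate n (), α n)
  obtain ⟨q, hq⟩ := H547R8.t_CKT H547R8.t_LAY _ (polyTime_rawA hV) (Polynomial.X + 1)
    (fun m => by simp)
  let Q : Polynomial ℕ := Polynomial.C 2 * Polynomial.X + 2 + (Polynomial.C 4 * p + 1)
  have hxn : ∀ n, (xn n).length ≤ Q.eval n := by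
    intro n
    have e2 : sz (List.replicate n ()) = 2 * n + 1 := by
      induction n with
      | zero => rfl
      | succ n ih => rw [List.replicate_succ, sz_list_cons, ih]; simp; omega
    have e3 := sz_listBool_le (α n)
    have e4 := hα n
    simp only [xn]
    rw [bits_length, sz_pair, e2]
    simp only [Q, Polynomial.eval_add, Polynomial.eval_mul, Polynomial.eval_C, Polynomial.eval_X,
      Polynomial.eval_one, Polynomial.eval_ofNat]
    omega
  have hnx : ∀ n, n ≤ (xn n).length + 1 := by
    intro n
    have e1 := length_lt_sz (List.replicate n ())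
    rw [List.length_replicate] at e1
    simp only [xn]
    rw [bits_length, sz_pair]
    omega
  obtain ⟨k, hk⟩ := poly_le_pow (q.comp Q)
  refine ⟨k, fun n => ?_⟩
  have h0 := hq (xn n)
  rw [show (Polynomial.X + 1 : Polynomial ℕ).eval (xn n).length = (xn n).length + 1 by simp] at h0
  obtain ⟨M, hM⟩ : ∃ M, M = (xn n).length + 1 := ⟨_, rfl⟩
  rw [← hM] at h0
  obtain ⟨l, s', h1, h2, h3⟩ := h0
  obtain ⟨u, hu⟩ := aon_slp h1
  have hcs : Cs (Inp M) s' u {H547R8.acc (rawA V) (xn n) M} := by
    refine ⟨l, s', u, hu, le_rfl, le_rfl, ?_⟩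
    rintro g rfl
    rcases h3 with h3 | ⟨i, hi⟩
    · exact Or.inl h3
    · exact Or.inr (Or.inl ⟨i, hi⟩)
  let φ : (Fin n → Bool) → (Fin M → Bool) := fun w i => if h : i.val < n then w ⟨i, h⟩ else false
  have hcs2 := Cs.comp (B := Inp M) (B' := Inp n) φ (Cs.base (Set.empty_subset (Inp n))) (by
    rintro g (⟨i, rfl⟩ | ⟨c, rfl⟩)
    · right
      by_cases hi : i.val < n
      · exact Or.inl ⟨⟨i, hi⟩, by funext w; simp [φ, hi]⟩
      · exact Or.inr ⟨false, by funext w; simp [φ, hi]⟩
    · exact Or.inr (Or.inr ⟨c, rfl⟩)) hcs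
  have hofn : ∀ w : Fin n → Bool, List.ofFn (φ w) = List.ofFn w ++ List.replicate (M - n) false := by
    intro w
    have hnM := hnx n
    apply List.ext_getElem
    · simp
      omega
    · intro i h1 h2
      rw [List.getElem_ofFn, List.getElem_append]
      by_cases hi : i < n
      · simp [φ, hi]
      · simp [φ, hi]
  have hfun : H547R8.acc (rawA V) (xn n) M ∘ φ = lf L n := by
    funext w
    rw [Bool.eq_iff_iff, lf_iff, hVL]
    simp only [Function.comp_apply, H547R8.acc, decide_eq_true_eq]
    unfold rawA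
    have e1 : unbits (List Unit × List Bool) (xn n) =
        some (List.replicate n (), α n) := unbits_bits _
    rw [unpair_pairBits]
    simp only [e1, Option.elim_some]
    rw [hofn, cut_append _ _ _ (by simp), List.length_ofFn]
  have hcs3 : Cs (Inp n) s' u {lf L n} := by
    refine hcs2.mono (by omega) (by omega) ?_
    rintro g rfl
    exact Or.inr ⟨_, rfl, hfun⟩
  obtain ⟨D, g1, g2⟩ := hcs3.circuit_binary
  refine ⟨D, ?_, fun w => by rw [g2, lf_iff]⟩
  calc D.binary ≤ s' := g1
    _ ≤ q.eval (xn n).length := h2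
    _ ≤ q.eval (Q.eval n) := eval_mono q (hxn n)
    _ = (q.comp Q).eval n := by rw [Polynomial.eval_comp]
    _ ≤ n ^ k + k := hk n

/-- **Circuits of polynomial size and polynomial advice.** -/
theorem ppoly_iff (L : Set (List Bool)) :
    Pool.Agent.W954.Sav.InPpoly L ↔ Pool.Agent.W901.NU.InPpoly L :=
  ⟨adv_of_circuits, circuits_of_adv⟩

end Pool.Agent.TH709
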