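import Pool.Agent.TH709.ThrDefs
import Pool.Agent.W901.NU.MainC
import Pool.Agent.W901.NU.ShA

/-!
# The exact threshold for prediction with polynomial advice
-/

set_option autoImplicit false

namespace Pool.Agent.TH709

open Pool.Agent.NPC Pool.Agent.H251R5.PQ Pool.Agent.W901.AT Pool.Agent.W901.NU
  Pool.Agent.H579R2.Spt

/-- the vectors for all hints, with a table of advice strings -/
def enumH (g : List Bool → List (Option Bool)) (b : ℕ) (tb : List (List Bool))
    (qs : List (List Bool)) : List (List (Option Bool)) :=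
  (enuStep^[b * (Nat.log 2 (bits qs).length + 1)] [[]]).map
    (fun t => g (pairBits (inpT tb qs) t))

theorem enumH_poly {g : List Bool → List (Option Bool)} (hg : Poly g) (b : ℕ) :
    Poly (fun q : List (List Bool) × List (List Bool) => enumH g b q.1 q.2) := by
  unfold enumH
  refine NPC.Poly.map (F := fun (q : List (List Bool) × List (List Bool)) (t : List Bool) =>
    g (pairBits (inpT q.1 q.2) t)) ((enu_poly_all b).comp (NPC.Poly.snd NPC.Poly.id)) ?_
  have e : Poly (fun p : (List (List Bool) × List (List Bool)) × List Bool =>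
      inpT p.1.1 p.1.2) := inpT_poly.comp (NPC.Poly.fst NPC.Poly.id)
  exact hg.comp (H622R2.poly_pairBits e (NPC.Poly.snd NPC.Poly.id))

/-- The parameters: everything that depends on the algorithm. -/
theorem params_s {f : ℕ → ℝ} {ε : ℝ}
    (hf : Filter.Tendsto (fun m : ℕ => f m / Real.sqrt (Real.log m)) Filter.atTop Filter.atTop)
    (hε : 0 < ε) {A : Set (List Bool)} {g : List Bool → List (Option Bool)} {b : ℕ}
    {α : ℕ → List Bool} {p : Polynomial ℕ} (hg : Poly g) (hα : ∀ n, (α n).length ≤ p.eval n)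
    (hX : ∀ qs : List (List Bool), qs ≠ [] → (∀ y ∈ qs, (y.length : ℝ) ≤ (qs.length : ℝ) ^ ε) →
      ∃ t : List Bool, t.length = b * (Nat.log 2 (bits qs).length + 1) ∧
        BeatsBy (f qs.length) A qs (g (pairBits (pairBits (bits qs) (α (bits qs).length)) t))) :
    ∃ (Pm P1 : Polynomial ℕ), (∀ n, 1 ≤ Pm.eval n) ∧ ∀ n, ∀ U : Finset (List Bool), U.Nonempty →
      (∀ y ∈ U, y.length ≤ n) → ∀ T : ℕ,
      (U.card : ℝ) < Real.exp (T * (1 / ((Pm.eval n : ℕ) : ℝ)) ^ 2 / 8) →
      ∃ adv : List Item, adv.length = T ∧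
        (∀ q ∈ adv, sz q ≤ 2 * (Pm.eval n * (4 * n + 10)) + 3) ∧
        ∀ y ∈ U, (dcd (enumH g b (tabl α (P1.eval n))) (Pm.eval n) adv y = true ↔ y ∈ A) := by
  obtain ⟨c, hc⟩ := exists_nat_ge (1 / ε)
  have hc1 : 1 ≤ (c : ℝ) * ε := by
    rwa [div_le_iff₀ hε] at hc
  obtain ⟨qE, hqE⟩ := (enumH_poly hg b).sz_le
  -- polynomials in `m`
  set Q1 : Polynomial ℕ := Polynomial.X * (Polynomial.C 4 * Polynomial.X + 2) + 1 with hQ1
  set Q2 : Polynomial ℕ := (Q1 + 1) * (Polynomial.C 4 * p.comp Q1 + 2) + 1 with hQ2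
  obtain ⟨e, he⟩ := exists_pow_bound (qE.comp (Q2 + Q1 + 1))
  obtain ⟨M, hM⟩ := big_of_tendsto hf e
  set Pm : Polynomial ℕ := (Polynomial.X + Polynomial.C (M + 2)) ^ (c + 1) with hPm
  have ePm : ∀ n, Pm.eval n = (n + (M + 2)) ^ (c + 1) := fun n => by simp [hPm]
  have hPm1 : ∀ n, n + (M + 2) ≤ Pm.eval n := fun n => by
    rw [ePm]
    exact Nat.le_self_pow (by omega) _
  refine ⟨Pm, Q1.comp Pm, fun n => by have := hPm1 n; omega, fun n U hU hUn T hT => ?_⟩
  set m := Pm.eval n with hm
  have hm1 := hPm1 n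
  have hmn : n ≤ m := by omega
  have hm2 : 2 ≤ m := by omega
  have eQ1 : Q1.eval m = m * (4 * m + 2) + 1 := by simp [hQ1]
  rw [Polynomial.eval_comp, ← hm]
  set S := Q1.eval m with hS
  set tb := tabl α S with htb
  obtain ⟨hfm, hMm⟩ := hM m (by omega)
  -- the size of the lists
  have hszz : ∀ z : List (List Bool), z.length = m → (∀ y ∈ z, y ∈ U) → sz z ≤ S := by
    intro z hz hzU
    have h1 := sz_le_length_mul z (4 * m + 1) (fun y hy => by
      have h2 := sz_listBool_le y
      have h3 := hUn y (hzU y hy)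
      omega)
    rw [hz] at h1
    rw [eQ1]
    exact h1
  have hsztb : sz tb ≤ Q2.eval m := by
    refine (sz_tabl hα S).trans (le_of_eq ?_)
    rw [hQ2]
    simp only [Polynomial.eval_add, Polynomial.eval_mul, Polynomial.eval_one, Polynomial.eval_C,
      Polynomial.eval_ofNat, Polynomial.eval_comp, ← hS]
  set N := (qE.comp (Q2 + Q1 + 1)).eval m with hN
  have hNe : N ≤ m ^ e := he m hm2
  have hcand : ∀ z : List (List Bool), z.length = m → (∀ y ∈ z, y ∈ U) →
      (enumH g b tb z).length ≤ N ∧ ∃ h ∈ enumH g b tb z, SGood (f m) h (answers A z) := by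
    intro z hz hzU
    constructor
    · have h1 := hqE (tb, z)
      have h2 := length_lt_sz (enumH g b tb z)
      have h3 : sz (tb, z) ≤ (Q2 + Q1 + 1).eval m := by
        rw [sz_pair]
        simp only [Polynomial.eval_add, Polynomial.eval_one, ← hS]
        have := hszz z hz hzU
        omega
      have h4 := eval_mono qE h3
      rw [hN, Polynomial.eval_comp]
      simp only at h1
      omega
    · have hne : z ≠ [] := by
        rintro rfl
        simp at hz
        omega
      obtain ⟨t, ht, hb⟩ := hX z hne (fun y hy => by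
        rw [hz]
        refine length_cond hε hc1 (by omega) ?_
        have h3 := hUn y (hzU y hy)
        calc y.length ^ c ≤ (n + (M + 2)) ^ c := Nat.pow_le_pow_left (by omega) c
          _ ≤ (n + (M + 2)) ^ (c + 1) := Nat.pow_le_pow_right (by omega) (by omega)
          _ = m := by rw [hm, ePm])
      have htab : inpT tb z = pairBits (bits z) (α (bits z).length) := by
        unfold inpT
        rw [htb, tabl_getD α]
        rw [bits_length]
        exact hszz z hz hzU
      refine ⟨_, List.mem_map.2 ⟨t, enu_mem _ _ ht, rfl⟩, ?_⟩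
      rw [htab]
      rw [hz] at hb
      exact sgood_of_beatsBy hfm hb
  have hN1 : 1 ≤ N := by
    obtain ⟨u, hu⟩ := hU
    obtain ⟨h1, h, h2, _⟩ := hcand (List.replicate m u) (by simp) (fun y hy => by
      rw [List.eq_of_mem_replicate hy]; exact hu)
    have := List.length_pos_iff.2 (List.ne_nil_of_mem h2)
    omega
  obtain ⟨adv, h1, h2, h3⟩ := exists_advice_s U hU (F := f m) (m := m) (T := T) (N := N) (by omega)
    (enumH g b tb) A hcand hfm (hMm N hN1 hNe) hT
  refine ⟨adv, h1, fun q hq => ?_, h3⟩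
  obtain ⟨g1, g2, g3⟩ := h2 q hq
  exact sz_item q g1 (fun a ha => hUn _ (g2 a ha)) (fun a ha => hUn _ (g3 a ha))

/-- **Sets which are predictable with advice are in `P/poly`.** -/
theorem inPpoly_of_predAdv {f : ℕ → ℝ} {ε : ℝ}
    (hf : Filter.Tendsto (fun m : ℕ => f m / Real.sqrt (Real.log m)) Filter.atTop Filter.atTop)
    (hε : 0 < ε) {A : Set (List Bool)} (h : PredAdv f ε A) : InPpoly A := by
  classical
  obtain ⟨g, b, α, p, hg0, hα, hX⟩ := h
  have hg : Poly g := poly_of_polyTime_bits hg0
  obtain ⟨Pm, P1, hPm, hpar⟩ := params_s hf hε hg hα hX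
  have hcard : ∀ n, (BL n).card ≤ 2 ^ n := fun n => by
    have := card_BL n
    exact_mod_cast this.le
  have hne : ∀ n, (BL n).Nonempty := fun n => by
    rw [← Finset.card_pos]
    have := card_BL n
    have h2 : (0 : ℤ) < 2 ^ n := by positivity
    omega
  have hadv : ∀ n, ∃ adv : List Item, adv.length = 8 * (Pm.eval n) ^ 2 * (n + 1) ∧
      (∀ q ∈ adv, sz q ≤ 2 * (Pm.eval n * (4 * n + 10)) + 3) ∧
      ∀ y ∈ BL n, (dcd (enumH g b (tabl α (P1.eval n))) (Pm.eval n) adv y = true ↔ y ∈ A) :=
    fun n => hpar n (BL n) (hne n) (fun y hy => (mem_BL.1 hy).le) _ (exp_cond (hPm n) (hcard n))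
  choose adv h1 h2 h3 using hadv
  -- the decoder
  set V : List Bool → List Bool := fun z =>
    [((unbits (List (List Bool) × List Item) (unpair z).2).map
      (fun a => dcd (enumH g b a.1) (Pm.eval (unpair z).1.length) a.2 (unpair z).1)).getD false]
    with hV
  refine ⟨V, fun n => bits ((tabl α (P1.eval n), adv n) : List (List Bool) × List Item),
    (P1 + 1) * (Polynomial.C 4 * p.comp P1 + 2) + 1 +
      (Polynomial.C 8 * Pm ^ 2 * (Polynomial.X + 1) *
        (2 * (Pm * (Polynomial.C 4 * Polynomial.X + 10)) + 3 + 1) + 1) + 1, ?_, fun n => ?_,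
    fun x => ?_⟩
  · refine polyTime_of_poly (g := fun z => ((unbits (List (List Bool) × List Item) (unpair z).2).map
      (fun a => dcd (enumH g b a.1) (Pm.eval (unpair z).1.length) a.2 (unpair z).1)).getD false) ?_
    have e1 : Poly (fun z : List Bool => (unpair z).1) := NPC.Poly.fst poly_unpair
    have e2 : Poly (fun z : List Bool => (unpair z).2) := NPC.Poly.snd poly_unpair
    refine NPC.Poly.optGetD (NPC.Poly.optMap
      (o := fun z : List Bool => unbits (List (List Bool) × List Item) (unpair z).2)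
      (f := fun z a => dcd (enumH g b a.1) (Pm.eval (unpair z).1.length) a.2 (unpair z).1)
      (poly_unbits.comp e2) ?_) (NPC.Poly.const false)
    have f1 : Poly (fun r : List Bool × (List (List Bool) × List Item) => r.1) :=
      NPC.Poly.fst NPC.Poly.id
    have f2 : Poly (fun r : List Bool × (List (List Bool) × List Item) => r.2.1) :=
      NPC.Poly.fst (NPC.Poly.snd NPC.Poly.id)
    have f3 : Poly (fun r : List Bool × (List (List Bool) × List Item) => r.2.2) :=
      NPC.Poly.snd (NPC.Poly.snd NPC.Poly.id)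
    have f4' : Poly (fun r : (List Bool × (List (List Bool) × List Item)) × List (List Bool) =>
        (r.1.2.1, r.2)) :=
      NPC.Poly.pair (NPC.Poly.fst (NPC.Poly.snd (NPC.Poly.fst NPC.Poly.id)))
        (NPC.Poly.snd NPC.Poly.id)
    have f4 := (enumH_poly hg b).comp f4'
    have f5 : UPoly (fun r : List Bool × (List (List Bool) × List Item) =>
        Pm.eval (unpair r.1).1.length) := ((UPoly.length e1).eval Pm).comp f1
    have f6 : Poly (fun r : List Bool × (List (List Bool) × List Item) => (unpair r.1).1) :=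
      e1.comp f1
    have f7 := dcd_poly (α := List Bool × (List (List Bool) × List Item))
      (E := fun r => enumH g b r.2.1) f4 f5 f3 f6
    exact f7
  · rw [bits_length, sz_pair]
    have e1 := sz_tabl hα (P1.eval n)
    have e2 := sz_le_length_mul (adv n) _ (h2 n)
    rw [h1 n] at e2
    simp only [Polynomial.eval_add, Polynomial.eval_mul, Polynomial.eval_one, Polynomial.eval_C,
      Polynomial.eval_ofNat, Polynomial.eval_comp, Polynomial.eval_X, Polynomial.eval_pow]
    omega
  · rw [hV]
    simp only [unpair_pairBits, unbits_bits, Option.map_some, Option.getD_some, List.cons.injEq,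
      and_true]
    exact (h3 x.length x (mem_BL.2 rfl)).symm

/-- sets in `P/poly` are fully predictable with advice -/
theorem fullyPredAdv_of_inPpoly {f : ℕ → ℝ} (hf : ∀ m : ℕ, 1 ≤ m → f m ≤ Real.sqrt m)
    {A : Set (List Bool)} (hA : InPpoly A) : FullyPredAdv f A := by
  classical
  obtain ⟨V, α, p, hV, hα, hV2⟩ := hA
  have hgp : Poly (fun z : List Bool => gadv V (pairBits z [])) :=
    (gadv_poly hV).comp (H622R2.poly_pairBits NPC.Poly.id (NPC.Poly.const []))
  refine ⟨fun z => gadv V (pairBits z []), fun n => bits (tabl α n),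
    (Polynomial.X + 1) * (Polynomial.C 4 * p + 2) + 1, polyTime_bits hgp,
    fun n => ?_, fun qs hqs => ?_⟩
  · rw [bits_length]
    refine (sz_tabl hα n).trans (le_of_eq ?_)
    simp
  · have h1 : gadv V (pairBits (pairBits (bits qs) (bits (tabl α (bits qs).length))) []) =
        (answers A qs).map some := by
      unfold answers
      rw [gadv_pair, List.map_map]
      refine List.map_congr_left fun y hy => ?_
      have hyl : y.length ≤ (bits qs).length := by
        rw [bits_length]
        have h1 := sz_le_of_mem hy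
        have h2 := length_lt_sz y
        omega
      rw [tabl_getD α hyl]
      have h2 : (decide (V (pairBits y (α y.length)) = [true])) = decide (y ∈ A) :=
        decide_eq_decide.2 (hV2 y).symm
      change some (decide (V (pairBits y (α y.length)) = [true])) = some (decide (y ∈ A))
      rw [h2]
    simp only
    rw [h1]
    refine ⟨beatsBy_full A qs hqs (hf _ (length_pos hqs)), fun a ha => ?_⟩
    obtain ⟨i, _, rfl⟩ := List.mem_map.1 ha
    simp

theorem FullyPredAdv.predAdv {f : ℕ → ℝ} {A : Set (List Bool)} (h : FullyPredAdv f A) (ε : ℝ) :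
    PredAdv f ε A := by
  obtain ⟨g, α, p, hg, hα, h⟩ := h
  have hg' : Poly g := poly_of_polyTime_bits hg
  refine ⟨fun z => g (unpair z).1, 0, α, p,
    polyTime_bits (hg'.comp (NPC.Poly.fst poly_unpair)), hα, fun qs hqs _ => ⟨[], by simp, ?_⟩⟩
  simp only [unpair_pairBits]
  exact (h qs hqs).1

/-- **Below the threshold everything is predictable.** -/
theorem predAdv_of_le {f : ℕ → ℝ} {ε c : ℝ}
    (h1 : ∀ m : ℕ, 1 ≤ m → f m ≤ Real.sqrt m)
    (h2 : ∀ m : ℕ, 1 ≤ m → f m ≤ c * Real.sqrt (Real.log m)) (A : Set (List Bool)) :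
    PredAdv f ε A := by
  obtain ⟨b, hb⟩ := exists_hint h1 h2
  refine ⟨fun z => prf (pairBits (unpair (unpair z).1).1 (unpair z).2), b, fun _ => [], 0, ?_,
    by simp, fun qs hqs _ => ?_⟩
  · refine polyTime_bits (prf_poly.comp (H622R2.poly_pairBits ?_ ?_))
    · exact (NPC.Poly.fst poly_unpair).comp (NPC.Poly.fst poly_unpair)
    · exact NPC.Poly.snd poly_unpair
  · obtain ⟨t, ht, hbt⟩ := hb A qs hqs
    refine ⟨t, ht, ?_⟩
    simp only [unpair_pairBits]
    exact hbt

/-- **The exact threshold for prediction with polynomial advice.** -/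
theorem threshold_law (f : ℕ → ℝ) (ε : ℝ) (hε : 0 < ε)
    (hf : ∀ m : ℕ, 1 ≤ m → f m ≤ Real.sqrt m) :
    (Filter.Tendsto (fun m : ℕ => f m / Real.sqrt (Real.log m)) Filter.atTop Filter.atTop →
      (∀ A : Set (List Bool), List.TFAE [InPpoly A, PredAdv f ε A, FullyPredAdv f A]) ∧
      List.TFAE [∀ L : Set (List Bool), InNP L → InPpoly L,
        ∃ A : Set (List Bool), NPHard A ∧ PredAdv f ε A,
        ∀ A : Set (List Bool), InNP A → FullyPredAdv f A]) ∧
    (∀ c : ℝ, (∀ m : ℕ, 1 ≤ m → f m ≤ c * Real.sqrt (Real.log m)) →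
      ∀ A : Set (List Bool), PredAdv f ε A) := by
  refine ⟨fun h => ⟨fun A => ?_, ?_⟩, fun c hc A => predAdv_of_le hf hc A⟩
  · tfae_have 1 → 3 := fun h => fullyPredAdv_of_inPpoly hf h
    tfae_have 3 → 2 := fun h => h.predAdv ε
    tfae_have 2 → 1 := fun h' => inPpoly_of_predAdv h hε h'
    tfae_finish
  · tfae_have 1 → 3 := fun h A hA => fullyPredAdv_of_inPpoly hf (h A hA)
    tfae_have 3 → 2 := fun h => by
      obtain ⟨hA1, hA2⟩ := Pool.Agent.NPC.H545KS.sat_complete
      exact ⟨_, hA2, (h _ hA1).predAdv ε⟩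
    tfae_have 2 → 1 := by
      rintro ⟨A, hA, h'⟩ L hL
      exact (inPpoly_of_predAdv h hε h').of_reduces (hA L hL)
    tfae_finish

end Pool.Agent.TH709
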