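import Pool.Agent.W901.NU.DefsA
import Pool.Agent.W901.NU.ShDefs

/-!
# Predictions with polynomial advice and a logarithmic number of help bits
-/

set_option autoImplicit false

namespace Pool.Agent.TH709

open Pool.Agent.NPC Pool.Agent.H251R5.PQ Pool.Agent.W901.AT Pool.Agent.W901.NU

/-- `A` is `(f, ε)`-predictable with advice: some polynomial-time algorithm `g` with an advice string
of polynomial length, which depends only on the length of the coded list, computes, for every
nonempty list of `m` questions about membership in `A`, each of length at most `m ^ ε`, and for some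
hint of `b * (⌊log₂ n⌋ + 1)` bits, where `n` is the length of the coded list (`b` is fixed; the hint
may depend on the list in any way), predictions for some of the questions which beat random guessing
by `f m` standard deviations. -/
def PredAdv (f : ℕ → ℝ) (ε : ℝ) (A : Set (List Bool)) : Prop :=
  ∃ (g : List Bool → List (Option Bool)) (b : ℕ) (α : ℕ → List Bool) (p : Polynomial ℕ),
    PolyTime (fun z => bits (g z)) ∧ (∀ n, (α n).length ≤ p.eval n) ∧
      ∀ qs : List (List Bool), qs ≠ [] → (∀ y ∈ qs, (y.length : ℝ) ≤ (qs.length : ℝ) ^ ε) →
        ∃ t : List Bool, t.length = b * (Nat.log 2 (bits qs).length + 1) ∧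
          BeatsBy (f qs.length) A qs (g (pairBits (pairBits (bits qs) (α (bits qs).length)) t))

/-- `A` is fully `f`-predictable with advice: the same with predictions for all questions, for all
nonempty lists of questions of any length, and without hints. -/
def FullyPredAdv (f : ℕ → ℝ) (A : Set (List Bool)) : Prop :=
  ∃ (g : List Bool → List (Option Bool)) (α : ℕ → List Bool) (p : Polynomial ℕ),
    PolyTime (fun z => bits (g z)) ∧ (∀ n, (α n).length ≤ p.eval n) ∧
      ∀ qs : List (List Bool), qs ≠ [] →
        BeatsBy (f qs.length) A qs (g (pairBits (bits qs) (α (bits qs).length))) ∧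
          ∀ a ∈ g (pairBits (bits qs) (α (bits qs).length)), a ≠ none

end Pool.Agent.TH709
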